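import Pool.Agent.THS.StmtsT

/-!
# THS row LPR (two nonzero entire functions of one variable)
-/

set_option autoImplicit false

open Filter Topology

namespace Pool.Agent.THS.H10

theorem lprF : LprStatement := by
  intro f h hf hh hf0 hh1
  by_contra hcon
  push Not at hcon
  have hev : ∀ᶠ t in 𝓝 (0 : ℂ), f t ≠ 0 := hf.continuous.continuousAt.eventually_ne hf0
  have hz : h =ᶠ[𝓝 (0 : ℂ)] (fun _ => (0 : ℂ)) := by
    filter_upwards [hev] with t ht
    exact hcon t ht
  have ha : AnalyticOnNhd ℂ h Set.univ := fun z _ => hh.analyticAt z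
  have hb : AnalyticOnNhd ℂ (fun _ : ℂ => (0 : ℂ)) Set.univ := fun z _ => analyticAt_const
  have := AnalyticOnNhd.eq_of_eventuallyEq ha hb hz
  exact hh1 (congrFun this 1)

end Pool.Agent.THS.H10
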